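import Pool.Agent.H.MP_1babb5_al.B

open FreeGroup Filter

namespace Pool.Agent.Results.MP_1babb5_al.Cubes

def occ {k : ℕ} (x : Fin k) (g : FreeGroup (Fin k)) : ℕ := g.toWord.countP fun y => y.1 = x

def cyc {k : ℕ} (w : FreeGroup (Fin k)) (N : ℕ) : Set (ConjClasses (FreeGroup (Fin k))) :=
  {c | (∃ φ : MulAut (FreeGroup (Fin k)), c = ConjClasses.mk (φ w)) ∧
    ∃ l, IsCyclicallyReduced l ∧ l.length = N ∧ c = ConjClasses.mk (FreeGroup.mk l)}

noncomputable def growth {k : ℕ} (w : FreeGroup (Fin k)) : ℝ :=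
  limsup (fun N : ℕ => ((cyc w N).ncard : ℝ) ^ (N : ℝ)⁻¹) atTop

def cubes (k : ℕ) : FreeGroup (Fin k) := ((List.finRange k).map fun i => FreeGroup.of i ^ 3).prod

open Pool.Agent.H.MP_1babb5_al in
theorem result (k : ℕ) (hk : 3 ≤ k) (x : Fin k) :
    cubes k ≠ 1 ∧ IsCyclicallyReduced (cubes k).toWord ∧ occ x (cubes k) = 3 ∧
    IsLeast {m | 0 < m ∧ ∃ φ : MulAut (FreeGroup (Fin k)), occ x (φ (cubes k)) = m} 3 ∧
    (∀ N, (cyc (cubes k) N).Finite ∧ (cyc (cubes k) N).ncard ≤ (2 * k) ^ N) ∧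
    √(2 * k - 3) ≤ growth (cubes k) ∧ (2 * k - 3 : ℝ) ^ (3 : ℝ)⁻¹ < growth (cubes k) := by
  obtain ⟨n, rfl⟩ := Nat.exists_eq_add_of_le' hk
  have a : (cubes (n + 3)).toWord = wd (List.finRange (n + 3)) := by
    rw [← (wd_red _).1.reduce_eq, ← toWord_mk, mk_wd]; rfl
  have b : ∀ L : List (Fin (n + 3)), (wd L).countP (fun y => y.1 = x) = 3 * L.count x := fun L => by
    induction L with
    | nil => rfl
    | cons i L ih =>
      rw [wd, List.flatMap_cons, List.countP_append, ← wd, ih]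
      by_cases e : i = x <;> simp [e, List.replicate]
      ring
  have c : occ x (cubes (n + 3)) = 3 := by
    rw [occ, a, b, List.count_eq_one_of_mem (List.nodup_finRange _) (List.mem_finRange x)]
  have d : √(2 * (n + 3 : ℕ) - 3) ≤ growth (cubes (n + 3)) := by
    rw [show (2 * (n + 3 : ℕ) - 3 : ℝ) = 2 * n + 3 by push_cast; ring]; exact gr n
  refine ⟨fun e => by simp [e, occ] at c, a ▸ wd_red _, c, ⟨⟨by norm_num, 1, c⟩, ?_⟩, fun N => by simpa [S, cyc] using S_sub (cubes (n + 3)) N,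
    d, lt_of_lt_of_le ?_ d⟩
  · rintro m ⟨h, φ, rfl⟩
    exact mu3 (List.nodup_finRange _) List.mem_finRange φ x h
  · rw [Real.sqrt_eq_rpow]
    refine Real.rpow_lt_rpow_of_exponent_lt ?_ (by norm_num)
    push_cast
    linarith [Nat.cast_nonneg (α := ℝ) n]

end Pool.Agent.Results.MP_1babb5_al.Cubes
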